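import Mathlib

/-!
Counting lemmas for permutations of `Fin n` with prescribed values, used for `S12030`.
-/

set_option autoImplicit false

namespace Pool.Agent.Helper993Coset

open Finset

/-- Permutations agreeing with a given permutation on `S`: there are `(n - |S|)!` of them. -/
theorem card_agree {n : ℕ} (S : Finset (Fin n)) (τ : Equiv.Perm (Fin n)) :
    (Finset.univ.filter (fun σ : Equiv.Perm (Fin n) => ∀ x ∈ S, σ x = τ x)).card
      = (n - S.card).factorial := by
  classical
  -- reduce to the pointwise stabiliser
  have h1 : (Finset.univ.filter (fun σ : Equiv.Perm (Fin n) => ∀ x ∈ S, σ x = τ x)).card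
      = (Finset.univ.filter (fun σ : Equiv.Perm (Fin n) => ∀ x, ¬ (x ∉ S) → σ x = x)).card := by
    refine Finset.card_bij' (fun σ _ => τ⁻¹ * σ) (fun σ _ => τ * σ) ?_ ?_ ?_ ?_
    · intro σ hσ
      simp only [Finset.mem_filter, Finset.mem_univ, true_and] at hσ ⊢
      intro x hx
      rw [Equiv.Perm.mul_apply, hσ x (not_not.mp hx)]
      simp
    · intro σ hσ
      simp only [Finset.mem_filter, Finset.mem_univ, true_and] at hσ ⊢
      intro x hx
      rw [Equiv.Perm.mul_apply, hσ x (not_not.mpr hx)]
    · intro σ _
      simp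
    · intro σ _
      simp
  rw [h1]
  have h2 := Fintype.card_congr (Equiv.Perm.subtypeEquivSubtypePerm (fun x : Fin n => x ∉ S))
  rw [Fintype.card_perm, Fintype.card_subtype_compl, Fintype.card_subtype,
    Fintype.card_subtype] at h2
  have h3 : (Finset.univ.filter (fun x : Fin n => x ∈ S)) = S := by ext; simp
  rw [h3, Fintype.card_fin] at h2
  exact h2.symm

/-- Permutations with one prescribed value. -/
theorem card_one {n : ℕ} (i j : Fin n) :
    (Finset.univ.filter (fun σ : Equiv.Perm (Fin n) => σ i = j)).card = (n - 1).factorial := by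
  classical
  have h := card_agree {i} (Equiv.swap i j)
  simpa using h

/-- Permutations with two prescribed values. -/
theorem card_two {n : ℕ} (i j k l : Fin n) (hik : i ≠ k) (hjl : j ≠ l) :
    (Finset.univ.filter (fun σ : Equiv.Perm (Fin n) => σ i = j ∧ σ k = l)).card
      = (n - 2).factorial := by
  classical
  have hne : Equiv.swap i j k ≠ j := by
    intro h
    apply hik
    have h2 : Equiv.swap i j k = Equiv.swap i j i := by rw [h, Equiv.swap_apply_left]
    exact ((Equiv.swap i j).injective h2).symm
  have h := card_agree {i, k} (Equiv.swap (Equiv.swap i j k) l * Equiv.swap i j)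
  have e1 : (Equiv.swap (Equiv.swap i j k) l * Equiv.swap i j) i = j := by
    rw [Equiv.Perm.mul_apply, Equiv.swap_apply_left]
    exact Equiv.swap_apply_of_ne_of_ne hne.symm hjl
  have e2 : (Equiv.swap (Equiv.swap i j k) l * Equiv.swap i j) k = l := by
    rw [Equiv.Perm.mul_apply, Equiv.swap_apply_left]
  rw [Finset.card_pair hik] at h
  rw [← h]
  congr 1
  ext σ
  simp only [Finset.mem_filter, Finset.mem_univ, true_and, Finset.mem_insert,
    Finset.mem_singleton, forall_eq_or_imp, forall_eq]
  rw [e1, e2]

/-- Permutations with three prescribed values: at most `(n - 3)!`. -/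
theorem card_three_le {n : ℕ} (i j k l p q : Fin n) (hik : i ≠ k) (hip : i ≠ p) (hkp : k ≠ p) :
    (Finset.univ.filter
      (fun σ : Equiv.Perm (Fin n) => σ i = j ∧ σ k = l ∧ σ p = q)).card
      ≤ (n - 3).factorial := by
  classical
  rcases Finset.eq_empty_or_nonempty (Finset.univ.filter
      (fun σ : Equiv.Perm (Fin n) => σ i = j ∧ σ k = l ∧ σ p = q)) with he | ⟨τ, hτ⟩
  · rw [he]; simp
  · simp only [Finset.mem_filter, Finset.mem_univ, true_and] at hτ
    obtain ⟨t1, t2, t3⟩ := hτ
    have h := card_agree {i, k, p} τ
    have hc : ({i, k, p} : Finset (Fin n)).card = 3 :=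
      Finset.card_eq_three.mpr ⟨i, k, p, hik, hip, hkp, rfl⟩
    rw [hc] at h
    rw [← h]
    apply le_of_eq
    congr 1
    ext σ
    simp only [Finset.mem_filter, Finset.mem_univ, true_and, Finset.mem_insert,
      Finset.mem_singleton, forall_eq_or_imp, forall_eq]
    rw [t1, t2, t3]

/-- A crude Bonferroni inequality. -/
theorem bonferroni {ι α : Type*} [DecidableEq ι] [DecidableEq α] (s : Finset ι)
    (F : ι → Finset α) (a b : ℕ) (ha : ∀ p ∈ s, a ≤ (F p).card)
    (hb : ∀ p ∈ s, ∀ q ∈ s, p ≠ q → (F p ∩ F q).card ≤ b) :
    s.card * a ≤ (s.biUnion F).card + s.card ^ 2 * b := by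
  induction s using Finset.induction_on with
  | empty => simp
  | insert x s hx ih =>
    have ih' := ih (fun p hp => ha p (Finset.mem_insert_of_mem hp))
      (fun p hp q hq h => hb p (Finset.mem_insert_of_mem hp) q (Finset.mem_insert_of_mem hq) h)
    have hxa := ha x (Finset.mem_insert_self x s)
    have hint : (F x ∩ s.biUnion F).card ≤ s.card * b := by
      rw [Finset.inter_biUnion]
      calc (s.biUnion fun i => F x ∩ F i).card ≤ ∑ i ∈ s, (F x ∩ F i).card :=
            Finset.card_biUnion_le
        _ ≤ ∑ i ∈ s, b := by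
            apply Finset.sum_le_sum
            intro i hi
            apply hb x (Finset.mem_insert_self x s) i (Finset.mem_insert_of_mem hi)
            rintro rfl
            exact hx hi
        _ = s.card * b := by simp
    have hunion := Finset.card_union_add_card_inter (F x) (s.biUnion F)
    rw [Finset.biUnion_insert, Finset.card_insert_of_notMem hx]
    nlinarith [hunion, hint, ih', hxa, Nat.zero_le (s.card * b), Nat.zero_le b]

/-- The pairs `i < j` of which `x` is a member: at most `n - 1`. -/
theorem card_pairs_le {n : ℕ} (x : Fin n) :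
    (Finset.univ.filter
      (fun p : Fin n × Fin n => p.1 < p.2 ∧ (p.1 = x ∨ p.2 = x))).card ≤ n - 1 := by
  classical
  have h1 : ((Finset.univ : Finset (Fin n)).erase x).card = n - 1 := by
    rw [Finset.card_erase_of_mem (Finset.mem_univ x)]; simp
  rw [← h1]
  apply Finset.card_le_card_of_injOn (fun p => if p.1 = x then p.2 else p.1)
  · intro p hp
    simp only [Finset.coe_filter, Finset.mem_univ, true_and, Set.mem_ofPred_eq] at hp
    simp only [Finset.coe_erase, Finset.coe_univ, Set.mem_sdiff, Set.mem_univ,
      Set.mem_singleton_iff, true_and]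
    split_ifs with h
    · intro h2
      rw [h, h2] at hp
      exact lt_irrefl _ hp.1
    · exact h
  · rintro ⟨p1, p2⟩ hp ⟨q1, q2⟩ hq hpq
    simp only [Finset.coe_filter, Finset.mem_univ, true_and, Set.mem_ofPred_eq] at hp hq
    simp only at hpq
    obtain ⟨hp1, hp2⟩ := hp
    obtain ⟨hq1, hq2⟩ := hq
    split_ifs at hpq with h3 h4 h4
    · subst h3; subst h4; subst hpq; rfl
    · have h5 : q2 = x := by tauto
      subst h3; subst h5; subst hpq
      exact absurd hp1 (not_lt.mpr hq1.le)
    · have h5 : p2 = x := by tauto
      subst h4; subst h5; subst hpq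
      exact absurd hp1 (not_lt.mpr hq1.le)
    · have h5 : q2 = x := by tauto
      have h6 : p2 = x := by tauto
      subst h5; subst hpq; subst h6; rfl

end Pool.Agent.Helper993Coset
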