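import Pool.Agent.Helper993_Coset.Count

/-!
The extremal example for `S12030`: the complement of
`{σ a = a} ∪ {σ b = b} ∪ {σ a = b, σ b = a}`, of size `(n-2) (n-1)!`.
-/

set_option autoImplicit false

namespace Pool.Agent.Helper993Coset

open Finset

/-- The complement of the example. -/
def D {n : ℕ} (a b : Fin n) : Finset (Equiv.Perm (Fin n)) :=
  Finset.univ.filter (fun σ => σ a = a ∨ σ b = b ∨ (σ a = b ∧ σ b = a))

/-- The example. -/
def A {n : ℕ} (a b : Fin n) : Finset (Equiv.Perm (Fin n)) :=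
  Finset.univ.filter (fun σ => ¬ (σ a = a ∨ σ b = b ∨ (σ a = b ∧ σ b = a)))

theorem card_D {n : ℕ} (a b : Fin n) (hab : a ≠ b) : (D a b).card = 2 * (n - 1).factorial := by
  classical
  set Ta := Finset.univ.filter (fun σ : Equiv.Perm (Fin n) => σ a = a) with hTa
  set Tb := Finset.univ.filter (fun σ : Equiv.Perm (Fin n) => σ b = b) with hTb
  set E := Finset.univ.filter (fun σ : Equiv.Perm (Fin n) => σ a = b ∧ σ b = a) with hE
  have h1 : Ta.card = (n - 1).factorial := card_one a a
  have h2 : Tb.card = (n - 1).factorial := card_one b b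
  have h3 : E.card = (n - 2).factorial := card_two a b b a hab hab.symm
  have h4 : (Ta ∩ Tb).card = (n - 2).factorial := by
    have : Ta ∩ Tb = Finset.univ.filter (fun σ : Equiv.Perm (Fin n) => σ a = a ∧ σ b = b) := by
      ext σ; simp [hTa, hTb]
    rw [this]
    exact card_two a a b b hab hab
  have h5 : D a b = (Ta ∪ Tb) ∪ E := by
    ext σ; simp [D, hTa, hTb, hE]
  have h6 : Disjoint (Ta ∪ Tb) E := by
    rw [Finset.disjoint_left]
    intro σ hσ hσE
    simp only [hTa, hTb, hE, Finset.mem_union, Finset.mem_filter, Finset.mem_univ, true_and]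
      at hσ hσE
    rcases hσ with h | h
    · exact hab (h.symm.trans hσE.1)
    · exact hab (hσE.2.symm.trans h)
  have h7 := Finset.card_union_add_card_inter Ta Tb
  rw [h5, Finset.card_union_of_disjoint h6]
  omega

theorem card_A {n : ℕ} (hn : 2 ≤ n) (a b : Fin n) (hab : a ≠ b) :
    (A a b).card = (n - 2) * (n - 1).factorial := by
  classical
  have h1 : (D a b).card + (A a b).card = n.factorial := by
    have := Finset.card_filter_add_card_filter_not
      (s := (Finset.univ : Finset (Equiv.Perm (Fin n))))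
      (fun σ => σ a = a ∨ σ b = b ∨ (σ a = b ∧ σ b = a))
    rw [Finset.card_univ, Fintype.card_perm, Fintype.card_fin] at this
    exact this
  rw [card_D a b hab] at h1
  obtain ⟨m, rfl⟩ : ∃ m, n = m + 2 := ⟨n - 2, by omega⟩
  have h2 : (m + 2).factorial = (m + 2) * (m + 1).factorial := Nat.factorial_succ (m + 1)
  have h3 : m + 2 - 1 = m + 1 := rfl
  have h4 : m + 2 - 2 = m := rfl
  rw [h3] at h1 ⊢
  rw [h4]
  rw [h2] at h1
  nlinarith [h1]

/-- Upper bound for the edge boundary of the example. -/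
theorem boundary_le {n : ℕ} (hn : 2 ≤ n) (a b : Fin n) (hab : a ≠ b) :
    (((A a b) ×ˢ (Finset.univ.filter (fun p : Fin n × Fin n => p.1 < p.2))).filter
      (fun x => x.1 * Equiv.swap x.2.1 x.2.2 ∉ A a b)).card ≤ 2 * n * (n - 1).factorial := by
  classical
  set Ta := Finset.univ.filter (fun σ : Equiv.Perm (Fin n) => σ a = a) with hTa
  set Tb := Finset.univ.filter (fun σ : Equiv.Perm (Fin n) => σ b = b) with hTb
  set E := Finset.univ.filter (fun σ : Equiv.Perm (Fin n) => σ a = b ∧ σ b = a) with hE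
  have h1 : Ta.card = (n - 1).factorial := card_one a a
  have h2 : Tb.card = (n - 1).factorial := card_one b b
  have h3 : E.card = (n - 2).factorial := card_two a b b a hab hab.symm
  set Pa := Finset.univ.filter
    (fun p : Fin n × Fin n => p.1 < p.2 ∧ (p.1 = a ∨ p.2 = a)) with hPa
  set Pb := Finset.univ.filter
    (fun p : Fin n × Fin n => p.1 < p.2 ∧ (p.1 = b ∨ p.2 = b)) with hPb
  have hPac : Pa.card ≤ n - 1 := card_pairs_le a
  have hPbc : Pb.card ≤ n - 1 := card_pairs_le b
  set T := (Ta ×ˢ Pa) ∪ (Tb ×ˢ Pb) ∪ (E ×ˢ (Pa ∪ Pb)) with hT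
  have hTcard : T.card ≤ (n - 1).factorial * (n - 1) + (n - 1).factorial * (n - 1)
      + (n - 2).factorial * ((n - 1) + (n - 1)) := by
    calc T.card ≤ ((Ta ×ˢ Pa) ∪ (Tb ×ˢ Pb)).card + (E ×ˢ (Pa ∪ Pb)).card :=
          Finset.card_union_le _ _
      _ ≤ ((Ta ×ˢ Pa).card + (Tb ×ˢ Pb).card) + (E ×ˢ (Pa ∪ Pb)).card := by
          gcongr
          exact Finset.card_union_le _ _
      _ ≤ _ := by
          rw [Finset.card_product, Finset.card_product, Finset.card_product, h1, h2, h3]
          have := Finset.card_union_le Pa Pb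
          gcongr
          omega
  have hle : (((A a b) ×ˢ (Finset.univ.filter (fun p : Fin n × Fin n => p.1 < p.2))).filter
      (fun x => x.1 * Equiv.swap x.2.1 x.2.2 ∉ A a b)).card ≤ T.card := by
    apply Finset.card_le_card_of_injOn (fun x => (x.1 * Equiv.swap x.2.1 x.2.2, x.2))
    · rintro ⟨σ, ⟨i, j⟩⟩ hx
      simp only [Finset.coe_filter, Finset.mem_product, Finset.mem_filter, Finset.mem_univ,
        true_and, Set.mem_ofPred_eq, A] at hx
      obtain ⟨⟨hσ, hij⟩, hτ⟩ := hx
      rw [not_not] at hτ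
      rw [not_or, not_or] at hσ
      obtain ⟨ha, hb, hE'⟩ := hσ
      simp only [Finset.mem_coe, hT, Finset.mem_union, Finset.mem_product, hTa, hTb, hE, hPa, hPb,
        Finset.mem_filter, Finset.mem_univ, true_and]
      simp only [Equiv.Perm.mul_apply] at hτ ⊢
      -- if neither index is x then the swap fixes x
      have key : ∀ x : Fin n, ¬ (i = x ∨ j = x) → Equiv.swap i j x = x := by
        intro x hx
        rw [not_or] at hx
        exact Equiv.swap_apply_of_ne_of_ne (Ne.symm hx.1) (Ne.symm hx.2)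
      rcases hτ with h | h | h
      · left; left
        refine ⟨h, hij, ?_⟩
        by_contra hc
        rw [key a hc] at h
        exact ha h
      · left; right
        refine ⟨h, hij, ?_⟩
        by_contra hc
        rw [key b hc] at h
        exact hb h
      · right
        refine ⟨h, ?_⟩
        by_contra hc
        rw [not_or] at hc
        have hca : ¬ (i = a ∨ j = a) := fun h' => hc.1 ⟨hij, h'⟩
        have hcb : ¬ (i = b ∨ j = b) := fun h' => hc.2 ⟨hij, h'⟩
        rw [key a hca, key b hcb] at h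
        exact hE' h
    · rintro ⟨σ, p⟩ _ ⟨τ, q⟩ _ h
      simp only [Prod.mk.injEq] at h
      obtain ⟨h1, h2⟩ := h
      subst h2
      rw [mul_left_inj] at h1
      rw [h1]
  refine hle.trans (hTcard.trans ?_)
  obtain ⟨m, rfl⟩ : ∃ m, n = m + 2 := ⟨n - 2, by omega⟩
  have e1 : m + 2 - 1 = m + 1 := rfl
  have e2 : m + 2 - 2 = m := rfl
  rw [e1, e2]
  have e3 : (m + 1).factorial = (m + 1) * m.factorial := Nat.factorial_succ m
  rw [e3]
  nlinarith [Nat.factorial_pos m]

/-- Any `K` pairs avoiding row and column `x` produce at least `(K/2) (n-2)!` permutations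
fixing `x`. -/
theorem union_ge {n K : ℕ} (hn : 2 * K + 2 ≤ n) (x : Fin n) (s : Finset (Fin n × Fin n))
    (hs : ∀ p ∈ s, p.1 ≠ x ∧ p.2 ≠ x) (hK : s.card = K) :
    K * (n - 2).factorial ≤ 2 * (Finset.univ.filter
      (fun σ : Equiv.Perm (Fin n) => σ x = x ∧ ∃ p ∈ s, σ p.1 = p.2)).card := by
  classical
  rcases Nat.eq_zero_or_pos K with h0 | hKpos
  · rw [h0]; simp
  set F : Fin n × Fin n → Finset (Equiv.Perm (Fin n)) := fun p =>
    Finset.univ.filter (fun σ : Equiv.Perm (Fin n) => σ x = x ∧ σ p.1 = p.2) with hF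
  have h1 : Finset.univ.filter
      (fun σ : Equiv.Perm (Fin n) => σ x = x ∧ ∃ p ∈ s, σ p.1 = p.2) = s.biUnion F := by
    ext σ
    simp only [Finset.mem_filter, Finset.mem_univ, true_and, Finset.mem_biUnion, hF]
    constructor
    · rintro ⟨h, p, hp, hp'⟩; exact ⟨p, hp, h, hp'⟩
    · rintro ⟨p, hp, h, hp'⟩; exact ⟨h, p, hp, hp'⟩
  rw [h1]
  have h2 := bonferroni s F (n - 2).factorial (n - 3).factorial
    (fun p hp => by
      have := card_two x x p.1 p.2 (hs p hp).1.symm (hs p hp).2.symm
      rw [← this])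
    (fun p hp q hq hpq => by
      by_cases h : p.1 = q.1
      · have : F p ∩ F q = ∅ := by
          ext σ
          simp only [hF, Finset.mem_inter, Finset.mem_filter, Finset.mem_univ, true_and,
            Finset.notMem_empty, iff_false]
          rintro ⟨⟨_, h3⟩, _, h4⟩
          apply hpq
          rw [Prod.ext_iff]
          refine ⟨h, ?_⟩
          rw [← h3, ← h4, h]
        rw [this]; simp
      · have h5 := card_three_le x x p.1 p.2 q.1 q.2 (hs p hp).1.symm (hs q hq).1.symm h
        refine le_trans (Finset.card_le_card ?_) h5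
        intro σ
        simp only [hF, Finset.mem_inter, Finset.mem_filter, Finset.mem_univ, true_and]
        rintro ⟨⟨h6, h7⟩, _, h8⟩
        exact ⟨h6, h7, h8⟩)
  rw [hK] at h2
  obtain ⟨m, rfl⟩ : ∃ m, n = m + 3 := ⟨n - 3, by omega⟩
  have e1 : m + 3 - 2 = m + 1 := rfl
  have e2 : m + 3 - 3 = m := rfl
  rw [e1, e2] at h2
  rw [e1]
  have e3 : (m + 1).factorial = (m + 1) * m.factorial := Nat.factorial_succ m
  rw [e3] at h2 ⊢
  have h3 : 2 * K ≤ m + 1 := by omega
  have h4 : 2 * (K ^ 2 * m.factorial) ≤ K * ((m + 1) * m.factorial) := by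
    calc 2 * (K ^ 2 * m.factorial) = K * ((2 * K) * m.factorial) := by ring
      _ ≤ K * ((m + 1) * m.factorial) := by gcongr
  omega

end Pool.Agent.Helper993Coset
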